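import Pool.Agent.Lib.MP_192f66_nt.Final

set_option autoImplicit false

/-!
# Waring's problem over `ZMod p` when a small multiple of `k` is slightly above a multiple of `p`
-/

namespace Pool.Agent.Results.MP_192f66_nt.NearMultiples

open Pool.Agent.W192

/-- Let `p` be a prime, `2 ≤ k < p` and `r k = a p + b` with `a, b ≥ 1` and `a + b < p`. Then
`Gfin p k ≤ k (1 + log (r (a + b) w)) + 2 √k + 7 (a + b) w + 3`, where `w = wmod p k` is the least
number of `k`-th powers that suffices modulo `p`, and `w ≤ gcd (p - 1, k)`. -/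
theorem result (p k r a b : ℕ) (hp : p.Prime) (hk2 : 2 ≤ k) (hkp : k < p) (ha : 1 ≤ a)
    (hb : 1 ≤ b) (hab : a + b < p) (hr : r * k = a * p + b) :
    wmod p k ≤ Nat.gcd (p - 1) k ∧ {s : ℕ | 0 < s ∧ Enough p k s}.Nonempty ∧
      (Gfin p k : ℝ) ≤ k * (1 + Real.log (r * ((a + b) * wmod p k))) + 2 * √k +
        7 * ((a + b) * wmod p k) + 3 := by
  have : Fact p.Prime := ⟨hp⟩
  exact ⟨wmod_le p k (by omega), Gfin_general p k r a b hk2 hkp hr ha hb hab⟩

end Pool.Agent.Results.MP_192f66_nt.NearMultiples
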