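import Pool.Agent.Lib.MP_192f66_nt.Cnt

set_option autoImplicit false

/-!
# The lower bound `k` in Waring's problem over `ZMod p` is not attained when `gcd (p - 1, k)` is
at least `6`, or `p = k + 1`
-/

namespace Pool.Agent.Results.MP_192f66_nt.StrictLower

open Polynomial Pool.Agent.W192

/-- Let `p` be a prime with `k < p < 2 k` and `w = gcd (p - 1, k)`. The number of polynomials of
degree `k m` which are sums of at most `k` `k`-th powers of polynomials of degree at most `m` is at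
most `(p ^ (m + 1) + k w) ^ k / (k ! w ^ k)`, and for large `m` they are at most a proportion
`p ^ k / ((p - 1) k ! w ^ k) + ε` of the polynomials of degree `k m`. If `6 ≤ w` this ratio is at
most `(e / 3) ^ k / (p - 1)`. If it is less than `1`, and in particular if `6 ≤ w` or `p = k + 1`,
then `k + 1 ≤ Gfin p k`. -/
theorem result (p k : ℕ) (hp : p.Prime) (hk2 : 2 ≤ k) (hkp : k < p) (hp2 : p < 2 * k) :
    {s : ℕ | 0 < s ∧ Enough p k s}.Nonempty ∧
    (∀ m : ℕ, {f : (ZMod p)[X] | f.natDegree = k * m ∧ IsRep p k k f}.ncard *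
      (k.factorial * Nat.gcd (p - 1) k ^ k) ≤ (p ^ (m + 1) + k * Nat.gcd (p - 1) k) ^ k) ∧
    (∀ ε : ℝ, 0 < ε → ∃ m0 : ℕ, ∀ m : ℕ, m0 ≤ m →
      ({f : (ZMod p)[X] | f.natDegree = k * m ∧ IsRep p k k f}.ncard : ℝ) ≤
        ((p : ℝ) ^ k / ((p - 1) * k.factorial * (Nat.gcd (p - 1) k) ^ k) + ε) *
          {f : (ZMod p)[X] | f.natDegree = k * m}.ncard) ∧
    (6 ≤ Nat.gcd (p - 1) k →
      (p : ℝ) ^ k / ((p - 1) * k.factorial * (Nat.gcd (p - 1) k) ^ k) ≤
        (Real.exp 1 / 3) ^ k / (p - 1)) ∧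
    (p ^ k < (p - 1) * (k.factorial * Nat.gcd (p - 1) k ^ k) → k + 1 ≤ Gfin p k) ∧
    (6 ≤ Nat.gcd (p - 1) k ∨ p = k + 1 → k + 1 ≤ Gfin p k) := by
  have : Fact p.Prime := ⟨hp⟩
  have hne := (Gfin_general p k 2 1 (2 * k - p) hk2 hkp (by omega) le_rfl (by omega)
    (by omega)).1
  have hmain : p ^ k < (p - 1) * (k.factorial * Nat.gcd (p - 1) k ^ k) → k + 1 ≤ Gfin p k := by
    intro h
    exact lt_of_enough (by omega) h (Nat.sInf_mem hne).2
  refine ⟨hne, ?_, fun ε hε => density k (by omega) ε hε,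
    fun h => ratio_six k (by omega) hp2 h, hmain, ?_⟩
  · intro m
    rw [ncard_Rp]
    exact count k m
  · rintro (h | h)
    · exact hmain (cond_six k (by omega) hp2 h)
    · exact hmain (cond_succ k hk2 h)

end Pool.Agent.Results.MP_192f66_nt.StrictLower
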