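import Pool.Agent.Lib.MP_192f66_nt.Special

set_option autoImplicit false

/-!
# Waring's problem for `k`-th powers over `ZMod p` when `p = 2 k - 1`
-/

namespace Pool.Agent.Results.MP_192f66_nt.TwiceMinusOne

open Pool.Agent.W192

/-- If `k ≥ 2` and `p = 2 k - 1` is prime then `Gfin p k ≤ (1 + log 4) k + 22`. -/
theorem result (p k : ℕ) (hp : p.Prime) (hk2 : 2 ≤ k) (hk : p = 2 * k - 1) :
    {s : ℕ | 0 < s ∧ Enough p k s}.Nonempty ∧ (Gfin p k : ℝ) ≤ (1 + Real.log 4) * k + 22 := by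
  have : Fact p.Prime := ⟨hp⟩
  obtain ⟨S, h1, h2, h3⟩ := bound_special p k hk2 (by omega)
  exact ⟨⟨S, h1, h2⟩, le_trans (by exact_mod_cast Gfin_le h1 h2) h3⟩

end Pool.Agent.Results.MP_192f66_nt.TwiceMinusOne
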